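import Mathlib

namespace Pool.Agent.Results.MP_870dc7_co.Growth

open Filter

/-- the counting function `B(N) = |B ∩ [1, N]|` -/
noncomputable def cnt (B : Set ℕ) (N : ℕ) : ℕ := (B ∩ Set.Icc 1 N).ncard

/-- every colouring with `r` colours has infinite `B`, `C` of positive integers with `B + C`
monochromatic and both `B(N) ≥ H(N)` and `C(N) ≥ H(N)` infinitely often -/
def Big (H : ℕ → ℕ) (r : ℕ) : Prop :=
  ∀ χ : ℕ → Fin r, ∃ B C : Set ℕ, B.Infinite ∧ C.Infinite ∧ 0 ∉ B ∧ 0 ∉ C ∧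
    (∃ i, ∀ b ∈ B, ∀ c ∈ C, χ (b + c) = i) ∧
    (∃ᶠ N in atTop, H N ≤ cnt B N) ∧ (∃ᶠ N in atTop, H N ≤ cnt C N)

theorem cnt_mono {B C : Set ℕ} {N : ℕ} (h : B ∩ Set.Icc 1 N ⊆ C) : cnt B N ≤ cnt C N :=
  Set.ncard_le_ncard (fun _ hx => ⟨h hx, hx.2⟩) ((Set.finite_Icc 1 N).inter_of_right _)

theorem cnt_le (B : Set ℕ) (N : ℕ) : cnt B N ≤ N := by
  have := Set.ncard_le_ncard (Set.inter_subset_right (s := B) (t := Set.Icc 1 N))
    (Set.finite_Icc 1 N)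
  simpa [cnt] using this

theorem exists_q (H : ℕ → ℕ) (hH : ∀ K, ∃ N, K * (H N + 1) < N) :
    ∃ q : Ultrafilter ℕ, ∀ S ∈ q, ∀ K, ∃ N, K * (H N + 1) < cnt S N := by
  let F : Filter ℕ := Filter.comk (fun S => ∃ K, ∀ N, cnt S N ≤ K * (H N + 1))
    ⟨0, fun N => by simp [cnt]⟩
    (fun t ⟨K, hK⟩ s hs => ⟨K, fun N => (cnt_mono fun _ hx => hs hx.1).trans (hK N)⟩)
    (fun s ⟨K, hK⟩ t ⟨L, hL⟩ => ⟨K + L, fun N => by
      have := Set.ncard_union_le (s ∩ Set.Icc 1 N) (t ∩ Set.Icc 1 N)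
      rw [← Set.union_inter_distrib_right] at this
      have := hK N
      have := hL N
      unfold cnt at *
      rw [add_mul]; omega⟩)
  have : F.NeBot := ⟨fun h => by
    have h1 : (Set.univ : Set ℕ)ᶜ ∈ F := by rw [h]; trivial
    obtain ⟨K, hK⟩ := Filter.compl_mem_comk.1 h1
    obtain ⟨N, hN⟩ := hH K
    have := hK N
    simp [cnt] at this
    omega⟩
  refine ⟨Ultrafilter.of F, fun S hS K => ?_⟩
  by_contra hh
  push Not at hh
  exact Ultrafilter.compl_notMem_iff.2 hS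
    (Ultrafilter.of_le F (Filter.compl_mem_comk.2 ⟨K, hh⟩))

theorem big (H : ℕ → ℕ) (hH : ∀ K, ∃ N, K * (H N + 1) < N) (r : ℕ) : Big H r := by
  classical
  intro χ
  obtain ⟨q, hq⟩ := exists_q H hH
  have h1 : ∀ x, ∃ i, {y | χ (x + y) = i} ∈ q := fun x => by
    obtain ⟨i, hi⟩ := (q.map fun y => χ (x + y)).eq_pure_of_finite
    exact ⟨i, by
      have : {i} ∈ q.map fun y => χ (x + y) := by rw [hi]; exact Set.mem_singleton i
      exact this⟩
  choose f hf using h1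
  obtain ⟨i, hi⟩ := (q.map f).eq_pure_of_finite
  have hL : {x | f x = i} ∈ q := by
    have : {i} ∈ q.map f := by rw [hi]; exact Set.mem_singleton i
    exact this
  have ext : ∀ (k : ℕ) (B : Finset ℕ), (∀ b ∈ B, f b = i) → ∃ D : Finset ℕ,
      (∀ c ∈ D, f c = i ∧ c ≠ 0 ∧ ∀ b ∈ B, χ (b + c) = i) ∧
      ∃ N, k * (H N + 1) < cnt D N := fun k B hB => by
    have : {c | f c = i} ∩ ⋂ b ∈ B, {y | χ (b + y) = i} ∈ q :=
      inter_mem hL ((Filter.biInter_finset_mem B).2 fun b hb => hB b hb ▸ hf b)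
    obtain ⟨N, hN⟩ := hq _ this k
    refine ⟨((Set.finite_Icc 1 N).inter_of_right
      ({c | f c = i} ∩ ⋂ b ∈ B, {y | χ (b + y) = i})).toFinset, fun c hc => ?_,
      N, hN.trans_le (cnt_mono fun x hx => by simpa using hx)⟩
    rw [Set.Finite.mem_toFinset] at hc
    exact ⟨hc.1.1, by have := hc.2.1; omega, fun b hb => Set.mem_iInter₂.1 hc.1.2 b hb⟩
  choose! g hg hg' using ext
  let P : Finset ℕ × Finset ℕ → Prop := fun s => (∀ b ∈ s.1, f b = i ∧ b ≠ 0) ∧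
    (∀ c ∈ s.2, f c = i ∧ c ≠ 0) ∧ ∀ b ∈ s.1, ∀ c ∈ s.2, χ (b + c) = i
  let st : ℕ → Finset ℕ × Finset ℕ := fun n => Nat.rec (∅, ∅)
    (fun k s => (s.1 ∪ g k (s.2 ∪ g k s.1), s.2 ∪ g k s.1)) n
  have hs : ∀ k, st (k + 1) = ((st k).1 ∪ g k ((st k).2 ∪ g k (st k).1),
    (st k).2 ∪ g k (st k).1) := fun _ => rfl
  have aux : ∀ k, P (st k) → ∀ c ∈ (st k).2 ∪ g k (st k).1, f c = i ∧ c ≠ 0 ∧
      ∀ b ∈ (st k).1, χ (b + c) = i := fun k h c hc => by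
    rcases Finset.mem_union.1 hc with hc | hc
    · exact ⟨(h.2.1 c hc).1, (h.2.1 c hc).2, fun b hb => h.2.2 b hb c hc⟩
    · exact hg k _ (fun b hb => (h.1 b hb).1) c hc
  have hP : ∀ k, P (st k) := fun k => by
    induction k with
    | zero => simp [P, st]
    | succ k ih =>
      have a1 := aux k ih
      have a2 := hg k _ fun c hc => (a1 c hc).1
      rw [hs]
      refine ⟨fun b hb => ?_, fun c hc => ⟨(a1 c hc).1, (a1 c hc).2.1⟩, fun b hb c hc => ?_⟩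
      · rcases Finset.mem_union.1 hb with hb | hb
        · exact ih.1 b hb
        · exact ⟨(a2 b hb).1, (a2 b hb).2.1⟩
      · rcases Finset.mem_union.1 hb with hb | hb
        · exact (a1 c hc).2.2 b hb
        · rw [add_comm]; exact (a2 b hb).2.2 c hc
  have m1 : Monotone fun k => (st k).1 := monotone_nat_of_le_succ fun k => by
    rw [hs]; exact Finset.subset_union_left
  have m2 : Monotone fun k => (st k).2 := monotone_nat_of_le_succ fun k => by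
    rw [hs]; exact Finset.subset_union_left
  have fin : ∀ S : Set ℕ, (∀ k, ∃ N, k * (H N + 1) < cnt S N) →
      S.Infinite ∧ ∃ᶠ N in atTop, H N ≤ cnt S N := fun S hS => by
    refine ⟨fun h => ?_, frequently_atTop.2 fun k => ?_⟩
    · obtain ⟨N, hN⟩ := hS S.ncard
      have := Set.ncard_le_ncard (Set.inter_subset_left (s := S) (t := Set.Icc 1 N)) h
      unfold cnt at hN
      nlinarith
    · obtain ⟨N, hN⟩ := hS (k + 1)
      have := cnt_le S N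
      exact ⟨N, by nlinarith, by nlinarith⟩
  have b1 := fin (⋃ k, ((st k).1 : Set ℕ)) fun k => by
    obtain ⟨N, hN⟩ := hg' k _ fun c hc => (aux k (hP k) c hc).1
    exact ⟨N, hN.trans_le (cnt_mono fun x hx => Set.mem_iUnion.2 ⟨k + 1, by
      rw [hs]; exact Finset.mem_union_right _ hx.1⟩)⟩
  have b2 := fin (⋃ k, ((st k).2 : Set ℕ)) fun k => by
    obtain ⟨N, hN⟩ := hg' k _ fun b hb => ((hP k).1 b hb).1
    exact ⟨N, hN.trans_le (cnt_mono fun x hx => Set.mem_iUnion.2 ⟨k + 1, by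
      rw [hs]; exact Finset.mem_union_right _ hx.1⟩)⟩
  refine ⟨_, _, b1.1, b2.1, fun h => ?_, fun h => ?_, ⟨i, fun b hb c hc => ?_⟩, b1.2, b2.2⟩
  · obtain ⟨k, hk⟩ := Set.mem_iUnion.1 h
    exact ((hP k).1 0 hk).2 rfl
  · obtain ⟨k, hk⟩ := Set.mem_iUnion.1 h
    exact ((hP k).2.1 0 hk).2 rfl
  · obtain ⟨k, hk⟩ := Set.mem_iUnion.1 hb
    obtain ⟨l, hl⟩ := Set.mem_iUnion.1 hc
    exact (hP (max k l)).2.2 b (m1 (le_max_left k l) hk) c (m2 (le_max_right k l) hl)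

theorem result :
    (∀ H : ℕ → ℕ, (∀ K, ∃ N, K * (H N + 1) < N) → ∀ r, Big H r) ∧
    ∃ H : ℕ → ℕ, Monotone H ∧ Tendsto H atTop atTop ∧ (∀ N, 1 ≤ N → 1 ≤ H N) ∧ Big H 2 := by
  refine ⟨big, Nat.sqrt, fun _ _ h => Nat.sqrt_le_sqrt h, ?_,
    fun N h => Nat.le_sqrt.2 (by omega), big _ (fun K => ⟨(K + 1) * (K + 1), ?_⟩) 2⟩
  · exact tendsto_atTop_atTop.2 fun b => ⟨b * b, fun a h => Nat.le_sqrt.2 h⟩
  · rw [Nat.sqrt_eq]; nlinarith

end Pool.Agent.Results.MP_870dc7_co.Growth
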